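import Mathlib
import Pool.Agent.H892.KT.Stm

/-!
# KT/JSH: basic birational germs (MP_686bb6_ag), for helper892
-/

set_option autoImplicit false

open Filter Topology Set Asymptotics

namespace Pool.Agent.H800.KT

open Pool.Agent.H892.KT

noncomputable section

/-- the shear -/
def sh (k : ℕ) (l : ℂ) : OpenPartialHomeomorph (ℂ × ℂ) (ℂ × ℂ) where
  toFun y := (y.1 + l * y.2 ^ k, y.2)
  invFun z := (z.1 - l * z.2 ^ k, z.2)
  source := univ
  target := univ
  map_source' _ _ := mem_univ _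
  map_target' _ _ := mem_univ _
  left_inv' y _ := by
    ext
    · simp
    · simp
  right_inv' y _ := by
    ext
    · simp
    · simp
  open_source := isOpen_univ
  open_target := isOpen_univ
  continuousOn_toFun := by fun_prop
  continuousOn_invFun := by fun_prop

theorem sh_apply (k : ℕ) (l : ℂ) (y : ℂ × ℂ) : sh k l y = (y.1 + l * y.2 ^ k, y.2) := rfl

theorem sh_symm_apply (k : ℕ) (l : ℂ) (y : ℂ × ℂ) :
    (sh k l).symm y = (y.1 - l * y.2 ^ k, y.2) := rfl

theorem rat_sh (k : ℕ) (l : ℂ) (p : ℂ × ℂ) :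
    RatAt (fun y : ℂ × ℂ => (y.1 + l * y.2 ^ k, y.2)) p := by
  refine ⟨MvPolynomial.X 0 + MvPolynomial.C l * MvPolynomial.X 1 ^ k, 1, MvPolynomial.X 1, 1,
    one_ne_zero, one_ne_zero, Eventually.of_forall fun q => ⟨?_, ?_⟩⟩
  · simp [ev]
  · simp [ev]

theorem bg_sh (k : ℕ) (hk : 2 ≤ k) (l : ℂ) : BG (sh k l) where
  mem := mem_univ _
  zero := by
    rw [sh_apply]
    have : k ≠ 0 := by omega
    simp [this]
  diff := by
    have h : Differentiable ℂ fun y : ℂ × ℂ => (y.1 + l * y.2 ^ k, y.2) := by fun_prop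
    exact h.differentiableOn
  diff' := by
    have h : Differentiable ℂ fun y : ℂ × ℂ => (y.1 - l * y.2 ^ k, y.2) := by fun_prop
    exact h.differentiableOn
  rat := fun p _ => rat_sh k l p
  rat' := fun p _ => by
    have h := rat_sh k (-l) p
    have e : (fun y : ℂ × ℂ => (y.1 + -l * y.2 ^ k, y.2)) = ⇑(sh k l).symm := by
      funext y
      rw [sh_symm_apply]
      ext
      · show y.1 + -l * y.2 ^ k = y.1 - l * y.2 ^ k
        ring
      · rfl
    rw [← e]
    exact h

/-- the domain of the second germ -/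
def S2 (m : ℕ) (l : ℂ) : Set (ℂ × ℂ) := {y | 1 + l * y.2 ^ m ≠ 0}

theorem S2_open (m : ℕ) (l : ℂ) : IsOpen (S2 m l) := by
  have h : Continuous fun y : ℂ × ℂ => 1 + l * y.2 ^ m := by fun_prop
  exact isOpen_ne.preimage h

/-- the second germ -/
def mu (m : ℕ) (l : ℂ) : OpenPartialHomeomorph (ℂ × ℂ) (ℂ × ℂ) where
  toFun y := (y.1 * (1 + l * y.2 ^ m), y.2)
  invFun z := (z.1 / (1 + l * z.2 ^ m), z.2)
  source := S2 m l
  target := S2 m l
  map_source' _ h := h
  map_target' _ h := h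
  left_inv' y h := by
    ext
    · exact mul_div_cancel_right₀ _ h
    · rfl
  right_inv' y h := by
    ext
    · exact div_mul_cancel₀ _ h
    · rfl
  open_source := S2_open m l
  open_target := S2_open m l
  continuousOn_toFun := by fun_prop
  continuousOn_invFun := by
    refine ContinuousOn.prodMk ?_ continuous_snd.continuousOn
    refine ContinuousOn.div continuous_fst.continuousOn ?_ fun z hz => hz
    fun_prop

theorem mu_apply (m : ℕ) (l : ℂ) (y : ℂ × ℂ) : mu m l y = (y.1 * (1 + l * y.2 ^ m), y.2) := rfl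

theorem mu_symm_apply (m : ℕ) (l : ℂ) (y : ℂ × ℂ) :
    (mu m l).symm y = (y.1 / (1 + l * y.2 ^ m), y.2) := rfl

theorem bg_mu (m : ℕ) (hm : 1 ≤ m) (l : ℂ) : BG (mu m l) where
  mem := by
    show (1 : ℂ) + l * (0 : ℂ × ℂ).2 ^ m ≠ 0
    have : m ≠ 0 := by omega
    simp [this]
  zero := by
    rw [mu_apply]
    simp
  diff := by
    have h : Differentiable ℂ fun y : ℂ × ℂ => (y.1 * (1 + l * y.2 ^ m), y.2) := by fun_prop
    exact h.differentiableOn
  diff' := by
    have h1 : DifferentiableOn ℂ (fun z : ℂ × ℂ => z.1 / (1 + l * z.2 ^ m)) (S2 m l) := by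
      have h : Differentiable ℂ fun z : ℂ × ℂ => 1 + l * z.2 ^ m := by fun_prop
      have h0 : Differentiable ℂ fun z : ℂ × ℂ => z.1 := differentiable_fst
      have h2 : DifferentiableOn ℂ (fun z : ℂ × ℂ => z.1) (S2 m l) := h0.differentiableOn
      have h3 : DifferentiableOn ℂ (fun z : ℂ × ℂ => 1 + l * z.2 ^ m) (S2 m l) :=
        h.differentiableOn
      have h4 : DifferentiableOn ℂ (fun z : ℂ × ℂ => (1 + l * z.2 ^ m)⁻¹) (S2 m l) :=
        h3.fun_inv (by intro z hz; exact hz)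
      have h5 := h2.fun_mul h4
      refine h5.congr fun z _ => ?_
      show z.1 / (1 + l * z.2 ^ m) = z.1 * (1 + l * z.2 ^ m)⁻¹
      exact div_eq_mul_inv _ _
    exact h1.prodMk differentiable_snd.differentiableOn
  rat := fun p _ => by
    refine ⟨MvPolynomial.X 0 * (1 + MvPolynomial.C l * MvPolynomial.X 1 ^ m), 1,
      MvPolynomial.X 1, 1, one_ne_zero, one_ne_zero, Eventually.of_forall fun q => ⟨?_, ?_⟩⟩
    · rw [mu_apply]
      simp [ev]
    · rw [mu_apply]
      simp [ev]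
  rat' := fun p hp => by
    refine ⟨MvPolynomial.X 0, 1 + MvPolynomial.C l * MvPolynomial.X 1 ^ m,
      MvPolynomial.X 1, 1, ?_, one_ne_zero, ?_⟩
    · intro h
      have h2 := congrArg (fun P => MvPolynomial.eval (fun _ : Fin 2 => (0 : ℂ)) P) h
      have hm0 : m ≠ 0 := by omega
      simp [hm0] at h2
    · have hp' : ∀ᶠ q in 𝓝 p, q ∈ S2 m l := (S2_open m l).mem_nhds hp
      filter_upwards [hp'] with q hq
      have hq' : 1 + l * q.2 ^ m ≠ 0 := hq
      constructor
      · rw [mu_symm_apply]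
        have e : ev (1 + MvPolynomial.C l * MvPolynomial.X 1 ^ m) q = 1 + l * q.2 ^ m := by
          simp [ev]
        rw [e]
        have e2 : ev (MvPolynomial.X 0) q = q.1 := by simp [ev]
        rw [e2]
        exact mul_div_cancel₀ _ hq'
      · rw [mu_symm_apply]
        simp [ev]

/-- **KT/JSH** -/
theorem t_JSH : S_JSH := by
  intro k hk l
  refine ⟨⟨sh k l, bg_sh k hk l, ?_⟩, ⟨mu (k - 1) l, bg_mu (k - 1) (by omega) l, ?_⟩⟩
  · have e : (fun y : ℂ × ℂ => sh k l y - y - (l * y.2 ^ k, (0 : ℂ))) = fun _ => (0 : ℂ × ℂ) := by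
      funext y
      rw [sh_apply]
      ext
      · show y.1 + l * y.2 ^ k - y.1 - l * y.2 ^ k = 0
        ring
      · show y.2 - y.2 - 0 = (0 : ℂ)
        ring
    rw [e]
    exact isBigO_zero _ _
  · have e : (fun y : ℂ × ℂ => mu (k - 1) l y - y - (l * (y.1 * y.2 ^ (k - 1)), (0 : ℂ))) =
        fun _ => (0 : ℂ × ℂ) := by
      funext y
      rw [mu_apply]
      ext
      · show y.1 * (1 + l * y.2 ^ (k - 1)) - y.1 - l * (y.1 * y.2 ^ (k - 1)) = 0
        ring
      · show y.2 - y.2 - 0 = (0 : ℂ)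
        ring
    rw [e]
    exact isBigO_zero _ _

end

end Pool.Agent.H800.KT
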